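import Pool.Agent.H74.BTL.Targets

/-! Row DEN of btl_modules (MP_60ff71_an): the density bound. -/

set_option autoImplicit false

open scoped ENNReal RealInnerProductSpace
open Filter Topology

universe u

namespace Pool.Agent.H95.BTL

open Pool.Agent.H74.BTL

theorem pf_DEN (h1 : T_LFT.{u}) (h2 : T_GRD.{u}) : T_DEN.{u} := by
  classical
  intro G _ L s c hc hB X P
  obtain ⟨Q, hQ⟩ : ∃ Q : Finset (G × L), Q =
      (X ×ˢ P).filter fun p => p.1 * (p.2 : G) * s * (p.2 : G)⁻¹ ∈ X := ⟨_, rfl⟩
  have hgoal : c * (Q.card : ℝ) ≤ (X.card : ℝ) := by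
    let m : G × L → G := fun q => q.1 * (q.2 : G)
    let w : G → ℕ := fun g => (Q.filter fun q => m q = g).card
    obtain ⟨F, hFA, hind, hF⟩ := h2 G ((G ⧸ L) →₀ ℝ) (vL L s) c (fun B => hB B) (Q.image m) w
    have hsA : ∑ g ∈ Q.image m, (w g : ℝ) = (Q.card : ℝ) := by
      rw [Finset.card_eq_sum_card_image m Q]
      push_cast
      rfl
    let QF : Finset (G × L) := Q.filter fun q => m q ∈ F
    have hsF : ∑ g ∈ F, (w g : ℝ) = (QF.card : ℝ) := by
      have h3 : QF.card = ∑ g ∈ F, (QF.filter fun q => m q = g).card :=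
        Finset.card_eq_sum_card_fiberwise fun q hq => (Finset.mem_filter.1 hq).2
      rw [h3]
      push_cast
      refine Finset.sum_congr rfl fun g hg => ?_
      have h4 : (QF.filter fun q => m q = g) = Q.filter fun q => m q = g := by
        ext q
        simp only [QF, Finset.mem_filter]
        constructor
        · rintro ⟨⟨ha, -⟩, hb⟩
          exact ⟨ha, hb⟩
        · rintro ⟨ha, hb⟩
          exact ⟨⟨ha, hb ▸ hg⟩, hb⟩
      rw [h4]
    rw [hsA, hsF] at hF
    -- independence
    have hli := h1 G L s F hind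
    let ι : {q // q ∈ QF} → {p : G × L // p.1 * (p.2 : G) ∈ F} := fun q =>
      ⟨q.1, (Finset.mem_filter.1 q.2).2⟩
    have hι : Function.Injective ι := by
      intro a b hab
      exact Subtype.ext (congrArg (fun z => z.1) hab)
    have hli2 := hli.comp ι hι
    have hsub : Set.range ((fun p : {p : G × L // p.1 * (p.2 : G) ∈ F} => vx L s p) ∘ ι) ≤
        Submodule.span ℝ ((X.image fun y => (Finsupp.single y 1 : G →₀ ℝ) : Finset (G →₀ ℝ)) :
          Set (G →₀ ℝ)) := by
      rintro _ ⟨q, rfl⟩
      have hq : q.1 ∈ Q := (Finset.mem_filter.1 q.2).1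
      rw [hQ, Finset.mem_filter, Finset.mem_product] at hq
      show vx L s q.1 ∈ Submodule.span ℝ _
      unfold vx
      refine Submodule.sub_mem _ (Submodule.subset_span ?_) (Submodule.subset_span ?_)
      · exact Finset.mem_coe.2 (Finset.mem_image_of_mem _ hq.2)
      · exact Finset.mem_coe.2 (Finset.mem_image_of_mem _ hq.1.1)
    have h5 := linearIndependent_le_span' _ hli2 _ hsub
    have h6 : QF.card ≤ X.card := by
      have h7 : Cardinal.mk {q // q ∈ QF} = (QF.card : Cardinal) := by
        rw [Cardinal.mk_coe_finset]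
      have h8 : QF.card ≤ (X.image fun y => (Finsupp.single y 1 : G →₀ ℝ)).card := by
        rw [h7] at h5
        have h9 : QF.card ≤ Fintype.card ↥((X.image fun y => (Finsupp.single y 1 : G →₀ ℝ) :
            Finset (G →₀ ℝ)) : Set (G →₀ ℝ)) := by exact_mod_cast h5
        refine h9.trans (le_of_eq ?_)
        simp
      exact h8.trans Finset.card_image_le
    exact hF.trans (by exact_mod_cast h6)
  rw [hQ] at hgoal
  exact hgoal

end Pool.Agent.H95.BTL
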